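import Pool.Agent.BSE.Stmts

/-!
# The oscillation does not increase (MP_3b0ba7_pr, module OSC of the Bose sector)
-/

open MeasureTheory Matrix Finset
open scoped ComplexConjugate

namespace Pool.Agent.BSE.H65

open Pool.Agent.Helper64_FR Pool.Agent.BSE

/-- the column `b ∈ B` of a matrix of `U_B` is a unit vector supported on `B` -/
theorem col_sum {n : ℕ} (B : Finset (Fin n)) (A : UU n) (hA : A ∈ UB B) (b : Fin n) (hb : b ∈ B) :
    ∑ j ∈ B, ‖(A : Matrix (Fin n) (Fin n) ℂ) j b‖ ^ 2 = 1 := by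
  have h1 : star (A : Matrix (Fin n) (Fin n) ℂ) * (A : Matrix (Fin n) (Fin n) ℂ) = 1 :=
    Matrix.mem_unitaryGroup_iff'.mp A.2
  have h2 := congrFun (congrFun h1 b) b
  rw [Matrix.mul_apply, Matrix.one_apply_eq] at h2
  have h3 : ∀ j, (star (A : Matrix (Fin n) (Fin n) ℂ)) b j *
      (A : Matrix (Fin n) (Fin n) ℂ) j b =
      ((‖(A : Matrix (Fin n) (Fin n) ℂ) j b‖ ^ 2 : ℝ) : ℂ) := by
    intro j
    rw [Matrix.star_apply, Complex.star_def, Complex.conj_mul']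
    push_cast
    rfl
  rw [Finset.sum_congr rfl fun j _ => h3 j, ← Complex.ofReal_sum] at h2
  have h4 : ∑ j, ‖(A : Matrix (Fin n) (Fin n) ℂ) j b‖ ^ 2 = 1 := by exact_mod_cast h2
  rw [← h4]
  refine Finset.sum_subset (Finset.subset_univ B) ?_
  intro j _ hj
  have h5 : (A : Matrix (Fin n) (Fin n) ℂ) j b = if j = b then 1 else 0 := hA j b (Or.inl hj)
  have h6 : j ≠ b := fun h => hj (h ▸ hb)
  rw [h5, if_neg h6]
  simp

theorem abs_sub_le_osc {n : ℕ} (c : Fin n → ℝ) (i m : Fin n) : |c i - c m| ≤ osc c := by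
  have := norm_le_pi_norm (fun p : Fin n × Fin n => c p.1 - c p.2) (i, m)
  simpa [osc] using this

theorem osc_nonneg {n : ℕ} (c : Fin n → ℝ) : 0 ≤ osc c := norm_nonneg _

theorem osc_le {n : ℕ} (c : Fin n → ℝ) {r : ℝ} (hr : 0 ≤ r) (h : ∀ i m, |c i - c m| ≤ r) :
    osc c ≤ r := by
  unfold osc
  rw [pi_norm_le_iff_of_nonneg hr]
  rintro ⟨i, m⟩
  simpa using h i m

theorem osc : OSCStmt := by
  intro n B A hA c
  refine osc_le _ (osc_nonneg c) ?_
  have key : ∀ (i : Fin n) (h : i ∈ B) (m : Fin n),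
      |(∑ j ∈ B, ‖(A : Matrix (Fin n) (Fin n) ℂ) j (B.min' ⟨i, h⟩)‖ ^ 2 * c j) - c m| ≤
        BSE.osc c := by
    intro i h m
    have h1 := col_sum B A hA (B.min' ⟨i, h⟩) (Finset.min'_mem _ _)
    have h2 : (∑ j ∈ B, ‖(A : Matrix (Fin n) (Fin n) ℂ) j (B.min' ⟨i, h⟩)‖ ^ 2 * c j) - c m =
        ∑ j ∈ B, ‖(A : Matrix (Fin n) (Fin n) ℂ) j (B.min' ⟨i, h⟩)‖ ^ 2 * (c j - c m) := by
      simp only [mul_sub, Finset.sum_sub_distrib]
      rw [← Finset.sum_mul, h1, one_mul]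
    rw [h2]
    calc |∑ j ∈ B, ‖(A : Matrix (Fin n) (Fin n) ℂ) j (B.min' ⟨i, h⟩)‖ ^ 2 * (c j - c m)|
        ≤ ∑ j ∈ B, |‖(A : Matrix (Fin n) (Fin n) ℂ) j (B.min' ⟨i, h⟩)‖ ^ 2 * (c j - c m)| :=
          Finset.abs_sum_le_sum_abs _ _
      _ ≤ ∑ j ∈ B, ‖(A : Matrix (Fin n) (Fin n) ℂ) j (B.min' ⟨i, h⟩)‖ ^ 2 * BSE.osc c := by
          refine Finset.sum_le_sum fun j _ => ?_
          rw [abs_mul, abs_of_nonneg (by positivity :
            (0 : ℝ) ≤ ‖(A : Matrix (Fin n) (Fin n) ℂ) j (B.min' ⟨i, h⟩)‖ ^ 2)]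
          exact mul_le_mul_of_nonneg_left (abs_sub_le_osc c j m) (by positivity)
      _ = BSE.osc c := by rw [← Finset.sum_mul, h1, one_mul]
  intro i m
  unfold TB
  by_cases hi : i ∈ B <;> by_cases hm : m ∈ B
  · simp only [hi, hm, dif_pos]
    rw [sub_self, abs_zero]
    exact osc_nonneg c
  · simp only [hi, hm, dif_pos, dif_neg, not_false_iff]
    exact key i hi m
  · simp only [hi, hm, dif_pos, dif_neg, not_false_iff]
    rw [abs_sub_comm]
    exact key m hm i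
  · simp only [hi, hm, dif_neg, not_false_iff]
    exact abs_sub_le_osc c i m

end Pool.Agent.BSE.H65
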