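import Pool.Agent.BSE.Stmts

/-!
# The maximum principle (MP_3b0ba7_pr, module SUP of the Bose sector)
-/

open MeasureTheory Matrix Finset
open scoped ComplexConjugate

namespace Pool.Agent.BSE.H65

open Pool.Agent.Helper64_FR Pool.Agent.BSE

namespace S

variable {n : ℕ}

theorem abs_sub_le_osc (c : Fin n → ℝ) (i m : Fin n) : |c i - c m| ≤ osc c := by
  have := norm_le_pi_norm (fun p : Fin n × Fin n => c p.1 - c p.2) (i, m)
  simpa [osc] using this

theorem osc_nonneg (c : Fin n → ℝ) : 0 ≤ osc c := norm_nonneg _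

theorem osc_sub_const (c : Fin n → ℝ) (t : ℝ) : osc (fun i => c i - t) = osc c := by
  unfold osc
  congr 1
  funext p
  ring

theorem osc_smul (c : Fin n → ℝ) (s : ℝ) (hs : 0 ≤ s) : osc (fun i => s * c i) = s * osc c := by
  unfold osc
  have : (fun p : Fin n × Fin n => s * c p.1 - s * c p.2) =
      s • (fun p : Fin n × Fin n => c p.1 - c p.2) := by
    funext p
    simp [mul_sub]
  rw [this, norm_smul, Real.norm_of_nonneg hs]

theorem continuous_osc : Continuous (osc : (Fin n → ℝ) → ℝ) := by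
  unfold osc
  exact Continuous.norm (continuous_pi fun p =>
    (continuous_apply p.1).sub (continuous_apply p.2))

theorem continuous_gg : Continuous (gg : (Fin n → ℝ) → ℝ) := by
  unfold gg
  refine continuous_const.mul (continuous_finsetSum _ fun i _ =>
    continuous_finsetSum _ fun m _ => ?_)
  exact ((continuous_apply i).sub (continuous_apply m)).pow 4

theorem gg_nonneg (c : Fin n → ℝ) : 0 ≤ gg c := by
  unfold gg
  have : 0 ≤ ∑ i, ∑ m, (c i - c m) ^ 4 :=
    Finset.sum_nonneg fun i _ => Finset.sum_nonneg fun m _ => by positivity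
  linarith

theorem gg_pos (c : Fin n → ℝ) (i m : Fin n) (h : c i ≠ c m) : 0 < gg c := by
  unfold gg
  have h1 : (c i - c m) ^ 4 ≤ ∑ m', (c i - c m') ^ 4 :=
    Finset.single_le_sum (f := fun m' => (c i - c m') ^ 4) (fun m' _ => by positivity)
      (Finset.mem_univ m)
  have h2 : ∑ m', (c i - c m') ^ 4 ≤ ∑ i', ∑ m', (c i' - c m') ^ 4 :=
    Finset.single_le_sum (f := fun i' => ∑ m', (c i' - c m') ^ 4)
      (fun i' _ => Finset.sum_nonneg fun m' _ => by positivity) (Finset.mem_univ i)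
  have h3 : 0 < (c i - c m) ^ 4 := by
    have : c i - c m ≠ 0 := sub_ne_zero.mpr h
    positivity
  linarith

theorem gg_aff (c : Fin n → ℝ) (s t : ℝ) : gg (fun i => s * (c i - t)) = s ^ 4 * gg c := by
  unfold gg
  have h : ∑ i, ∑ m, (s * (c i - t) - s * (c m - t)) ^ 4 =
      s ^ 4 * ∑ i, ∑ m, (c i - c m) ^ 4 := by
    rw [Finset.mul_sum]
    refine Finset.sum_congr rfl fun i _ => ?_
    rw [Finset.mul_sum]
    exact Finset.sum_congr rfl fun m _ => by ring
  rw [h]
  ring

/-- if the oscillation is positive then two entries differ -/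
theorem exists_ne_of_osc_pos (c : Fin n → ℝ) (h : 0 < osc c) : ∃ i m, c i ≠ c m := by
  by_contra hc
  push Not at hc
  have : (fun p : Fin n × Fin n => c p.1 - c p.2) = 0 := by
    funext p
    simp [hc p.1 p.2]
  unfold osc at h
  rw [this, norm_zero] at h
  exact lt_irrefl _ h

theorem ridge_continuous {k : ℕ} {f : (Fin n → ℝ) → ℂ} (hf : IsRidge k f) : Continuous f := by
  obtain ⟨N, a, x, -, hfx⟩ := hf
  have : f = fun c : Fin n → ℝ => ∑ t : Fin N, a t * (∑ i, x t i * (c i : ℂ)) ^ k := funext hfx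
  rw [this]
  refine continuous_finsetSum _ fun t _ => continuous_const.mul (Continuous.pow ?_ k)
  refine continuous_finsetSum _ fun i _ => continuous_const.mul ?_
  exact Complex.continuous_ofReal.comp (continuous_apply i)

theorem ridge_aff {k : ℕ} {f : (Fin n → ℝ) → ℂ} (hf : IsRidge k f) (c : Fin n → ℝ) (s t : ℝ) :
    f (fun i => s * (c i - t)) = (s : ℂ) ^ k * f c := by
  obtain ⟨N, a, x, hx, hfx⟩ := hf
  rw [hfx, hfx, Finset.mul_sum]
  refine Finset.sum_congr rfl fun r _ => ?_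
  have : ∑ i, x r i * ((s * (c i - t) : ℝ) : ℂ) = (s : ℂ) * ∑ i, x r i * (c i : ℂ) := by
    push_cast
    have h1 : ∀ i, x r i * ((s : ℂ) * ((c i : ℂ) - (t : ℂ))) =
        (s : ℂ) * (x r i * (c i : ℂ)) - (s : ℂ) * (t : ℂ) * x r i := fun i => by ring
    rw [Finset.sum_congr rfl fun i _ => h1 i, Finset.sum_sub_distrib, ← Finset.mul_sum,
      ← Finset.mul_sum, hx r]
    ring
  rw [this, mul_pow]
  ring

/-- a ridge function of positive degree vanishes where the oscillation vanishes -/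
theorem ridge_zero {k : ℕ} (hk : k ≠ 0) {f : (Fin n → ℝ) → ℂ} (hf : IsRidge k f)
    (c : Fin n → ℝ) (i0 : Fin n) (hc : osc c = 0) : f c = 0 := by
  have h1 : c = fun i => 1 * (c i - 0) := by funext i; ring
  have h2 : (fun i => (1 : ℝ) * (c i - 0)) = fun i => 0 * (c i - c i0) + c i0 := by
    funext i
    have := abs_sub_le_osc c i i0
    rw [hc] at this
    have h3 : c i - c i0 = 0 := abs_nonpos_iff.mp this
    linarith
  have h3 := ridge_aff hf c 0 (c i0)
  have h4 : (fun i => (0 : ℝ) * (c i - c i0)) = fun _ => (0 : ℝ) := by funext i; ring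
  rw [h4] at h3
  have h5 := ridge_aff hf c 1 (c i0)
  have h6 : (fun i => (1 : ℝ) * (c i - c i0)) = fun _ => (0 : ℝ) := by
    funext i
    have := abs_sub_le_osc c i i0
    rw [hc] at this
    have h3 : c i - c i0 = 0 := abs_nonpos_iff.mp this
    rw [h3, mul_zero]
  rw [h6, h3] at h5
  have h7 : ((0 : ℝ) : ℂ) ^ k = 0 := by simp [hk]
  rw [h7] at h5
  simpa using h5.symm

/-- the shell -/
def Sh (n : ℕ) (i0 : Fin n) : Set (Fin n → ℝ) := {c | osc c = 1 ∧ c i0 = 0}

theorem isCompact_Sh (i0 : Fin n) : IsCompact (Sh n i0) := by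
  have hK : IsCompact (Metric.closedBall (0 : Fin n → ℝ) 1) := isCompact_closedBall _ _
  refine IsCompact.of_isClosed_subset hK ?_ ?_
  · exact (isClosed_eq continuous_osc continuous_const).inter
      (isClosed_eq (continuous_apply i0) continuous_const)
  · rintro c ⟨h1, h2⟩
    rw [mem_closedBall_zero_iff, pi_norm_le_iff_of_nonneg zero_le_one]
    intro i
    have := abs_sub_le_osc c i i0
    rw [h1, h2, sub_zero] at this
    exact this

/-- the normalization of a vector -/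
theorem norm_mem_Sh (i0 : Fin n) (c : Fin n → ℝ) (h : 0 < osc c) :
    (fun i => (osc c)⁻¹ * (c i - c i0)) ∈ Sh n i0 := by
  constructor
  · have h1 := osc_smul (fun i => c i - c i0) (osc c)⁻¹ (inv_nonneg.mpr h.le)
    rw [osc_sub_const] at h1
    rw [h1, inv_mul_cancel₀ h.ne']
  · simp

/-- the extremal point -/
theorem extremal {k : ℕ} (hk : 4 ≤ k) {f : (Fin n → ℝ) → ℂ} (hf : IsRidge k f)
    (h0 : ∃ c, f c ≠ 0) : ∃ (c0 : Fin n → ℝ) (R : ℝ), osc c0 = 1 ∧ 0 < R ∧ ‖f c0‖ = R * gg c0 ∧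
      0 < gg c0 ∧ ∀ c, ‖f c‖ ≤ R * gg c * osc c ^ (k - 4) := by
  obtain ⟨c1, hc1⟩ := h0
  have hn : Nonempty (Fin n) := by
    by_contra hn
    rw [not_nonempty_iff] at hn
    obtain ⟨N, a, x, hx, hfx⟩ := hf
    apply hc1
    rw [hfx]
    refine Finset.sum_eq_zero fun t _ => ?_
    rw [Finset.univ_eq_empty, Finset.sum_empty, zero_pow (by omega), mul_zero]
  obtain ⟨i0⟩ := hn
  have hosc1 : 0 < osc c1 := by
    rcases (osc_nonneg c1).eq_or_lt with h | h
    · exact absurd (ridge_zero (by omega) hf c1 i0 h.symm) hc1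
    · exact h
  have hgpos : ∀ c ∈ Sh n i0, 0 < gg c := by
    rintro c ⟨h1, -⟩
    obtain ⟨i, m, him⟩ := exists_ne_of_osc_pos c (by rw [h1]; exact one_pos)
    exact gg_pos c i m him
  have hcont : ContinuousOn (fun c => ‖f c‖ / gg c) (Sh n i0) :=
    ((ridge_continuous hf).norm.continuousOn).div continuous_gg.continuousOn
      fun c hc => (hgpos c hc).ne'
  have hne : (Sh n i0).Nonempty := ⟨_, norm_mem_Sh i0 c1 hosc1⟩
  obtain ⟨c0, hc0, hmax⟩ := (isCompact_Sh i0).exists_isMaxOn hne hcont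
  have hg0 := hgpos c0 hc0
  have hmax' : ∀ c ∈ Sh n i0, ‖f c‖ / gg c ≤ ‖f c0‖ / gg c0 := fun c hc => hmax hc
  -- the value at the normalization
  have hval : ∀ c : Fin n → ℝ, 0 < osc c →
      ‖f c‖ ≤ (‖f c0‖ / gg c0) * gg c * osc c ^ (k - 4) := by
    intro c hc
    have h1 := hmax' _ (norm_mem_Sh i0 c hc)
    rw [ridge_aff hf c _ _, gg_aff c _ _] at h1
    have h2 : 0 < gg c := by
      obtain ⟨i, m, him⟩ := exists_ne_of_osc_pos c hc
      exact gg_pos c i m him
    have h3 : ‖((((osc c)⁻¹ : ℝ) : ℂ)) ^ k * f c‖ = (osc c)⁻¹ ^ k * ‖f c‖ := by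
      rw [norm_mul, norm_pow, Complex.norm_real, Real.norm_of_nonneg (inv_nonneg.mpr hc.le)]
    rw [h3, div_le_iff₀ (by positivity)] at h1
    have h4 : osc c ^ k = osc c ^ (k - 4) * osc c ^ 4 := by
      rw [← pow_add]
      congr 1
      omega
    have h5 : ‖f c‖ = osc c ^ k * ((osc c)⁻¹ ^ k * ‖f c‖) := by
      rw [← mul_assoc, ← mul_pow, mul_inv_cancel₀ hc.ne', one_pow, one_mul]
    rw [h5]
    calc osc c ^ k * ((osc c)⁻¹ ^ k * ‖f c‖)
        ≤ osc c ^ k * (‖f c0‖ / gg c0 * ((osc c)⁻¹ ^ 4 * gg c)) :=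
          mul_le_mul_of_nonneg_left h1 (by positivity)
      _ = (‖f c0‖ / gg c0) * gg c * osc c ^ (k - 4) * (osc c ^ 4 * (osc c)⁻¹ ^ 4) := by
          rw [h4]; ring
      _ = (‖f c0‖ / gg c0) * gg c * osc c ^ (k - 4) := by
          rw [← mul_pow, mul_inv_cancel₀ hc.ne', one_pow, mul_one]
  have hR : 0 < ‖f c0‖ / gg c0 := by
    have h1 := hval c1 hosc1
    have h2 : 0 < ‖f c1‖ := norm_pos_iff.mpr hc1
    by_contra h
    push Not at h
    have h3 : (‖f c0‖ / gg c0) * gg c1 * osc c1 ^ (k - 4) ≤ 0 := by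
      have h4 : 0 ≤ gg c1 * osc c1 ^ (k - 4) := mul_nonneg (gg_nonneg _) (by positivity)
      rw [mul_assoc]
      exact mul_nonpos_of_nonpos_of_nonneg h h4
    linarith
  refine ⟨c0, ‖f c0‖ / gg c0, hc0.1, hR, (div_mul_cancel₀ _ hg0.ne').symm, hg0, ?_⟩
  intro c
  rcases (osc_nonneg c).eq_or_lt with h | h
  · rw [ridge_zero (by omega) hf c i0 h.symm, norm_zero]
    exact mul_nonneg (mul_nonneg hR.le (gg_nonneg _)) (by positivity)
  · exact hval c h

theorem continuous_TB (B : Finset (Fin n)) (c : Fin n → ℝ) :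
    Continuous fun A : UB B => TB B (A : UU n) c := by
  refine continuous_pi fun i => ?_
  unfold TB
  by_cases h : i ∈ B
  · simp only [h, dif_pos]
    refine continuous_finsetSum _ fun j _ => Continuous.mul (Continuous.pow (Continuous.norm ?_) 2)
      continuous_const
    exact (continuous_apply_apply j _).comp (continuous_subtype_val.comp continuous_subtype_val)
  · simp only [h, dif_neg, not_false_iff]
    exact continuous_const

theorem integrable_of_continuous (B : Finset (Fin n)) {g : UB B → ℝ} (hg : Continuous g) :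
    Integrable g (haarB B) := by
  unfold haarB
  exact hg.integrable_of_hasCompactSupport (HasCompactSupport.of_compactSpace g)

end S

open S in
theorem sup (hCER : CERStmt) (hOSC : OSCStmt) (hCE1 : CE1Stmt) : SUPStmt := by
  intro n k hk w hw μ x f hμ hf h0 hE
  obtain ⟨c0, R, hosc, hR, hfc, hg, hall⟩ := extremal hk hf h0
  have hF : 0 < ‖f c0‖ := by rw [hfc]; positivity
  have hE0 := hE c0
  -- the bound of the averages
  have hI : ∀ B : Finset (Fin n), ‖∫ A : UB B, f (TB B (A : UU n) c0) ∂(haarB B)‖ ≤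
      R * ∫ A : UB B, gg (TB B (A : UU n) c0) ∂(haarB B) := by
    intro B
    rw [← integral_const_mul]
    refine norm_integral_le_of_norm_le (integrable_of_continuous B
      (continuous_const.mul (continuous_gg.comp (continuous_TB B c0)))) ?_
    refine Filter.Eventually.of_forall fun A => ?_
    refine (hall _).trans ?_
    have h1 : osc (TB B (A : UU n) c0) ≤ 1 := hosc ▸ hOSC n B (A : UU n) A.2 c0
    have h2 : osc (TB B (A : UU n) c0) ^ (k - 4) ≤ 1 := pow_le_one₀ (osc_nonneg _) h1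
    exact mul_le_of_le_one_right (mul_nonneg hR.le (gg_nonneg _)) h2
  -- real part of the eigenvalue equation
  have h1 : x * ‖f c0‖ ^ 2 = ∑ B : Finset (Fin n), w B * (‖f c0‖ ^ 2 -
      (conj (f c0) * ∫ A : UB B, f (TB B (A : UU n) c0) ∂(haarB B)).re) := by
    have h2 : conj (f c0) * ((x : ℂ) * f c0) = ((x * ‖f c0‖ ^ 2 : ℝ) : ℂ) := by
      rw [mul_left_comm, Complex.conj_mul']
      push_cast
      rfl
    have h3 := congrArg Complex.re (congrArg (fun z => conj (f c0) * z) hE0)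
    rw [h2, Complex.ofReal_re, Finset.mul_sum, Complex.re_sum] at h3
    rw [← h3]
    refine Finset.sum_congr rfl fun B _ => ?_
    have h4 : conj (f c0) * ((w B : ℂ) * (f c0 - ∫ A : UB B, f (TB B (A : UU n) c0) ∂(haarB B))) =
        (w B : ℂ) * (((‖f c0‖ ^ 2 : ℝ) : ℂ) -
          conj (f c0) * ∫ A : UB B, f (TB B (A : UU n) c0) ∂(haarB B)) := by
      rw [mul_left_comm, mul_sub, Complex.conj_mul']
      push_cast
      rfl
    rw [h4, Complex.re_ofReal_mul, Complex.sub_re, Complex.ofReal_re]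
  have h2 : ∑ B : Finset (Fin n), w B * (‖f c0‖ * (R * (gg c0 -
      ∫ A : UB B, gg (TB B (A : UU n) c0) ∂(haarB B)))) ≤ x * ‖f c0‖ ^ 2 := by
    rw [h1]
    refine Finset.sum_le_sum fun B _ => mul_le_mul_of_nonneg_left ?_ (hw B)
    have h3 : (conj (f c0) * ∫ A : UB B, f (TB B (A : UU n) c0) ∂(haarB B)).re ≤
        ‖f c0‖ * (R * ∫ A : UB B, gg (TB B (A : UU n) c0) ∂(haarB B)) := by
      refine (Complex.re_le_norm _).trans ?_
      rw [norm_mul, Complex.norm_conj]
      exact mul_le_mul_of_nonneg_left (hI B) hF.le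
    have h4 : ‖f c0‖ * (R * (gg c0 - ∫ A : UB B, gg (TB B (A : UU n) c0) ∂(haarB B))) =
        ‖f c0‖ * (R * gg c0) - ‖f c0‖ *
          (R * ∫ A : UB B, gg (TB B (A : UU n) c0) ∂(haarB B)) := by ring
    rw [h4, ← hfc]
    nlinarith [h3]
  have h3 : ∑ B : Finset (Fin n), w B * (gg c0 -
      ∫ A : UB B, gg (TB B (A : UU n) c0) ∂(haarB B)) ≥ μ * gg c0 := by
    have h4 : ∑ B : Finset (Fin n), w B * ∑ m, ∑ i,
        H47.dv B (fun j => (c0 j - c0 m) ^ 2) i ^ 2 ≤ ∑ B : Finset (Fin n), w B * (gg c0 -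
      ∫ A : UB B, gg (TB B (A : UU n) c0) ∂(haarB B)) :=
      Finset.sum_le_sum fun B _ => mul_le_mul_of_nonneg_left (hCER n B c0) (hw B)
    have h5 : ∑ B : Finset (Fin n), w B * ∑ m, ∑ i,
        H47.dv B (fun j => (c0 j - c0 m) ^ 2) i ^ 2 =
        ∑ m, ∑ B : Finset (Fin n), w B * ∑ i,
          H47.dv B (fun j => (c0 j - c0 m) ^ 2) i ^ 2 := by
      rw [Finset.sum_comm]
      exact Finset.sum_congr rfl fun B _ => Finset.mul_sum _ _ _
    have h6 : ∑ m, μ * ∑ i, H47.dv Finset.univ (fun j => (c0 j - c0 m) ^ 2) i ^ 2 ≤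
        ∑ m, ∑ B : Finset (Fin n), w B * ∑ i,
          H47.dv B (fun j => (c0 j - c0 m) ^ 2) i ^ 2 :=
      Finset.sum_le_sum fun m _ => hμ _
    have h7 : ∑ m, μ * ∑ i, H47.dv Finset.univ (fun j => (c0 j - c0 m) ^ 2) i ^ 2 =
        μ * gg c0 := by
      rw [← Finset.mul_sum, hCE1 n Finset.univ c0]
      rfl
    linarith
  have h4 : ∑ B : Finset (Fin n), w B * (‖f c0‖ * (R * (gg c0 -
      ∫ A : UB B, gg (TB B (A : UU n) c0) ∂(haarB B)))) = ‖f c0‖ * R *
      ∑ B : Finset (Fin n), w B * (gg c0 -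
      ∫ A : UB B, gg (TB B (A : UU n) c0) ∂(haarB B)) := by
    rw [Finset.mul_sum]
    exact Finset.sum_congr rfl fun B _ => by ring
  rw [h4] at h2
  have h5 : ‖f c0‖ * R * (μ * gg c0) ≤ x * ‖f c0‖ ^ 2 :=
    (mul_le_mul_of_nonneg_left h3 (by positivity)).trans h2
  have h6 : ‖f c0‖ * R * (μ * gg c0) = μ * ‖f c0‖ ^ 2 := by
    rw [hfc]; ring
  rw [h6] at h5
  exact le_of_mul_le_mul_right h5 (by positivity)

end Pool.Agent.BSE.H65
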