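import Pool.Agent.BSE.Stmts2
import Pool.Agent.Helper10_BSE.Rou
import Pool.Agent.Helper64_FR.Basic

/-!
# Irreducibility (MP_3b0ba7_pr, module IRR of the Bose sector)
-/

open MeasureTheory Matrix Finset
open scoped ComplexConjugate

namespace Pool.Agent.BSE.H65

open Pool.Agent.Helper64_FR Pool.Agent.BSE

namespace I

variable {n : ℕ}

/-- the entries of a diagonal unitary matrix -/
def dv1 (i₀ : Fin n) (z : ℂ) : Fin n → ℂ := fun i => if i = i₀ then z else 1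

/-- a diagonal unitary matrix -/
noncomputable def dz (i₀ : Fin n) (z : ℂ) (hz : ‖z‖ = 1) : UU n :=
  ⟨Matrix.diagonal (dv1 i₀ z), by
    rw [Matrix.mem_unitaryGroup_iff, Matrix.star_eq_conjTranspose, Matrix.diagonal_conjTranspose,
      Matrix.diagonal_mul_diagonal, ← Matrix.diagonal_one]
    congr 1
    funext i
    unfold dv1
    by_cases h : i = i₀
    · simp only [h, if_true, Pi.star_apply, Complex.star_def]
      rw [Complex.mul_conj', hz]
      norm_num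
    · simp [h]⟩

theorem cj_dz (i₀ : Fin n) (z : ℂ) (hz : ‖z‖ = 1) (M : Matrix (Fin n) (Fin n) ℂ) (i j : Fin n) :
    ((((dz i₀ z hz)⁻¹ : UU n) : Matrix (Fin n) (Fin n) ℂ) * M *
      ((dz i₀ z hz : UU n) : Matrix (Fin n) (Fin n) ℂ)) i j =
      conj (dv1 i₀ z i) * M i j * dv1 i₀ z j := by
  have h1 : (((dz i₀ z hz)⁻¹ : UU n) : Matrix (Fin n) (Fin n) ℂ) =
      Matrix.diagonal (star (dv1 i₀ z)) := by
    show star (Matrix.diagonal (dv1 i₀ z)) = _
    rw [Matrix.star_eq_conjTranspose, Matrix.diagonal_conjTranspose]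
  have h2 : ((dz i₀ z hz : UU n) : Matrix (Fin n) (Fin n) ℂ) = Matrix.diagonal (dv1 i₀ z) := rfl
  rw [h1, h2, Matrix.mul_diagonal, Matrix.diagonal_mul]
  rfl

/-- the polynomial identity for the first average -/
theorem step1 (p : Fin n) (z : ℂ) (hz : z * conj z = 1) (a b : Fin n → ℂ)
    (M : Matrix (Fin n) (Fin n) ℂ) :
    z * ∑ i, ∑ j, a i * (conj (dv1 p z i) * M i j * dv1 p z j) * b j =
      (∑ j ∈ univ.erase p, a p * M p j * b j) +
      (a p * M p p * b p + ∑ i ∈ univ.erase p, ∑ j ∈ univ.erase p, a i * M i j * b j) * z +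
      (∑ i ∈ univ.erase p, a i * M i p * b p) * z ^ 2 := by
  have hp : dv1 p z p = z := if_pos rfl
  have hne : ∀ i ∈ univ.erase p, dv1 p z i = 1 := fun i hi => if_neg (Finset.ne_of_mem_erase hi)
  rw [← Finset.add_sum_erase univ _ (Finset.mem_univ p), ← Finset.add_sum_erase univ _ (Finset.mem_univ p)]
  have h1 : ∑ j ∈ univ.erase p, a p * (conj (dv1 p z p) * M p j * dv1 p z j) * b j =
      conj z * ∑ j ∈ univ.erase p, a p * M p j * b j := by
    rw [Finset.mul_sum]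
    refine Finset.sum_congr rfl fun j hj => ?_
    rw [hp, hne j hj]
    ring
  have h2 : ∑ i ∈ univ.erase p, ∑ j, a i * (conj (dv1 p z i) * M i j * dv1 p z j) * b j =
      z * (∑ i ∈ univ.erase p, a i * M i p * b p) +
        ∑ i ∈ univ.erase p, ∑ j ∈ univ.erase p, a i * M i j * b j := by
    rw [Finset.mul_sum, ← Finset.sum_add_distrib]
    refine Finset.sum_congr rfl fun i hi => ?_
    rw [← Finset.add_sum_erase univ _ (Finset.mem_univ p), hp, hne i hi, map_one]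
    congr 1
    · ring
    · refine Finset.sum_congr rfl fun j hj => ?_
      rw [hne j hj]
      ring
  rw [h1, h2, hp]
  linear_combination (a p * M p p * b p * z + ∑ j ∈ univ.erase p, a p * M p j * b j) * hz

/-- the polynomial identity for the second average -/
theorem step2 (p q : Fin n) (hpq : p ≠ q) (z : ℂ) (hz : z * conj z = 1) (a b : Fin n → ℂ)
    (M : Matrix (Fin n) (Fin n) ℂ) :
    z * ∑ j ∈ univ.erase p, a p * (conj (dv1 q (conj z) p) * M p j * dv1 q (conj z) j) * b j =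
      a p * M p q * b q + (∑ j ∈ (univ.erase p).erase q, a p * M p j * b j) * z := by
  have hq : dv1 q (conj z) q = conj z := if_pos rfl
  have hp : dv1 q (conj z) p = 1 := if_neg hpq
  have hmem : q ∈ univ.erase p := Finset.mem_erase.2 ⟨hpq.symm, Finset.mem_univ q⟩
  rw [← Finset.add_sum_erase _ _ hmem, hq, hp, map_one]
  have h1 : ∑ j ∈ (univ.erase p).erase q, a p * (1 * M p j * dv1 q (conj z) j) * b j =
      ∑ j ∈ (univ.erase p).erase q, a p * M p j * b j := by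
    refine Finset.sum_congr rfl fun j hj => ?_
    have : dv1 q (conj z) j = 1 := if_neg (Finset.ne_of_mem_erase hj)
    rw [this]
    ring
  rw [h1]
  linear_combination (a p * M p q * b q) * hz

/-- `(g⁻¹ M g)_{pq}` -/
theorem conj_entry (g : UU n) (M : Matrix (Fin n) (Fin n) ℂ) (p q : Fin n) :
    (((g⁻¹ : UU n) : Matrix (Fin n) (Fin n) ℂ) * M * (g : Matrix (Fin n) (Fin n) ℂ)) p q =
      ∑ i, ∑ j, conj ((g : Matrix (Fin n) (Fin n) ℂ) i p) * M i j *
        (g : Matrix (Fin n) (Fin n) ℂ) j q := by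
  rw [Matrix.mul_apply]
  simp only [Matrix.mul_apply, Finset.sum_mul]
  rw [Finset.sum_comm]
  refine Finset.sum_congr rfl fun i _ => Finset.sum_congr rfl fun j _ => ?_
  rfl

/-- the pairing is invariant -/
theorem pair_inv (ρ : URep n) (g : UU n) (v w : Fin ρ.dim → ℂ) :
    star (ρ.mat g *ᵥ v) ⬝ᵥ (ρ.mat g *ᵥ w) = star v ⬝ᵥ w := by
  have h1 : star (ρ.mat g) * ρ.mat g = 1 := Matrix.mem_unitaryGroup_iff'.mp (ρ.hom g).2
  rw [Matrix.star_mulVec, ← Matrix.dotProduct_mulVec, Matrix.mulVec_mulVec,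
    ← Matrix.star_eq_conjTranspose, h1, Matrix.one_mulVec]

theorem pair_eig (ρ : URep n) (g : UU n) (v w : Fin ρ.dim → ℂ) (c : ℂ) (hc : c * conj c = 1)
    (h : ρ.mat g *ᵥ v = c • v) : star v ⬝ᵥ (ρ.mat g *ᵥ w) = c * (star v ⬝ᵥ w) := by
  have h1 := pair_inv ρ g v w
  rw [h, star_smul, smul_dotProduct, smul_eq_mul, Complex.star_def] at h1
  rw [← h1, ← mul_assoc, hc, one_mul]

open scoped ComplexOrder in
theorem zero_of_pair {m : ℕ} (w : Fin m → ℂ) (h : star w ⬝ᵥ w = 0) : w = 0 := by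
  exact dotProduct_star_self_eq_zero.1 h

end I

open I in
theorem irr : IRRStmt := by
  intro n k ρ hB
  obtain ⟨p, q, hpq, T, hT⟩ := hB
  -- the extremal vector
  have hmem : orb k p q (1 : UU n) ∈ LinearMap.range T := by
    rw [hT.range_eq]
    exact Submodule.subset_span ⟨1, rfl⟩
  obtain ⟨v₀, hv₀⟩ := hmem
  have hTg : ∀ g : UU n, T (ρ.mat g *ᵥ v₀) = orb k p q g := by
    intro g
    funext M
    rw [hT.equiv, hv₀]
    unfold orb
    simp
  have hv₀ne : v₀ ≠ 0 := by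
    intro h
    rw [h, map_zero] at hv₀
    have h1 := congrFun hv₀ (Matrix.single p q 1)
    unfold orb at h1
    simp at h1
  have hdim : 0 < ρ.dim := by
    by_contra hc
    have h0 : ρ.dim = 0 := by omega
    apply hv₀ne
    funext i
    exact absurd i.2 (by omega)
  refine ⟨hdim, fun W hW => ?_⟩
  -- the orbit of the extremal vector spans
  have hspan : Submodule.span ℂ (Set.range fun g : UU n => ρ.mat g *ᵥ v₀) = ⊤ := by
    apply Submodule.map_injective_of_injective hT.inj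
    rw [Submodule.map_span, ← Set.range_comp, Submodule.map_top, hT.range_eq]
    congr 1
    congr 1
    funext g
    exact hTg g
  rcases eq_or_ne W ⊥ with hWbot | hWbot
  · exact Or.inl hWbot
  right
  obtain ⟨w, hwW, hw⟩ := Submodule.exists_mem_ne_zero_of_ne_bot hWbot
  -- roots of unity
  obtain ⟨ζ, hζ⟩ : ∃ ζ : ℂ, IsPrimitiveRoot ζ (2 * k + 1) :=
    ⟨_, Complex.isPrimitiveRoot_exp (2 * k + 1) (by omega)⟩
  have hζ1 : ‖ζ‖ = 1 := hζ.norm'_eq_one (by omega)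
  have hζt : ∀ t : ℕ, ‖ζ ^ t‖ = 1 := fun t => by rw [norm_pow, hζ1, one_pow]
  have hζc : ∀ t : ℕ, ‖conj (ζ ^ t)‖ = 1 := fun t => by rw [Complex.norm_conj, hζt]
  have hzz : ∀ t : ℕ, ζ ^ t * conj (ζ ^ t) = 1 := fun t => by
    rw [Complex.mul_conj', hζt]
    norm_num
  have hkk : ∀ t : ℕ, (conj (ζ ^ t)) ^ k * conj ((conj (ζ ^ t)) ^ k) = 1 := fun t => by
    rw [map_pow (starRingEnd ℂ) (conj (ζ ^ t)) k, Complex.conj_conj, ← mul_pow,
      mul_comm (conj (ζ ^ t)), hzz, one_pow]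
  -- the averages
  obtain ⟨P1, hP1⟩ : ∃ P1 : Matrix (Fin ρ.dim) (Fin ρ.dim) ℂ, P1 = ∑ t ∈ range (2 * k + 1),
      (ζ ^ t) ^ k • ρ.mat (dz p (ζ ^ t) (hζt t)) := ⟨_, rfl⟩
  obtain ⟨P2, hP2⟩ : ∃ P2 : Matrix (Fin ρ.dim) (Fin ρ.dim) ℂ, P2 = ∑ t ∈ range (2 * k + 1),
      (ζ ^ t) ^ k • ρ.mat (dz q (conj (ζ ^ t)) (hζc t)) := ⟨_, rfl⟩
  have hP1T : ∀ (x : Fin ρ.dim → ℂ) (M : Matrix (Fin n) (Fin n) ℂ), T (P1 *ᵥ x) M =
      ∑ t ∈ range (2 * k + 1), (ζ ^ t) ^ k * T x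
        ((((dz p (ζ ^ t) (hζt t))⁻¹ : UU n) : Matrix (Fin n) (Fin n) ℂ) * M *
          ((dz p (ζ ^ t) (hζt t) : UU n) : Matrix (Fin n) (Fin n) ℂ)) := by
    intro x M
    rw [hP1, Matrix.sum_mulVec, map_sum, Finset.sum_apply]
    refine Finset.sum_congr rfl fun t _ => ?_
    rw [Matrix.smul_mulVec, map_smul, Pi.smul_apply, smul_eq_mul, hT.equiv]
  have hP2T : ∀ (x : Fin ρ.dim → ℂ) (M : Matrix (Fin n) (Fin n) ℂ), T (P2 *ᵥ x) M =
      ∑ t ∈ range (2 * k + 1), (ζ ^ t) ^ k * T x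
        ((((dz q (conj (ζ ^ t)) (hζc t))⁻¹ : UU n) : Matrix (Fin n) (Fin n) ℂ) * M *
          ((dz q (conj (ζ ^ t)) (hζc t) : UU n) : Matrix (Fin n) (Fin n) ℂ)) := by
    intro x M
    rw [hP2, Matrix.sum_mulVec, map_sum, Finset.sum_apply]
    refine Finset.sum_congr rfl fun t _ => ?_
    rw [Matrix.smul_mulVec, map_smul, Pi.smul_apply, smul_eq_mul, hT.equiv]
  have hpow : ∀ t : ℕ, ζ ^ (2 * t) = (ζ ^ t) ^ 2 := fun t => by rw [← pow_mul, mul_comm]
  have hval : ∀ g : UU n, P2 *ᵥ (P1 *ᵥ (ρ.mat g *ᵥ v₀)) =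
      ((2 * (k : ℂ) + 1) * (2 * (k : ℂ) + 1) *
        (conj ((g : Matrix (Fin n) (Fin n) ℂ) p p) * (g : Matrix (Fin n) (Fin n) ℂ) q q) ^ k) •
        v₀ := by
    intro g
    obtain ⟨a, ha⟩ : ∃ a : Fin n → ℂ, a = fun i => conj ((g : Matrix (Fin n) (Fin n) ℂ) i p) :=
      ⟨_, rfl⟩
    obtain ⟨b, hb⟩ : ∃ b : Fin n → ℂ, b = fun j => (g : Matrix (Fin n) (Fin n) ℂ) j q :=
      ⟨_, rfl⟩
    have h1 : ∀ M, T (ρ.mat g *ᵥ v₀) M = (∑ i, ∑ j, a i * M i j * b j) ^ k := by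
      intro M
      rw [hTg]
      unfold orb
      rw [conj_entry, ha, hb]
    have h2 : ∀ M, T (P1 *ᵥ (ρ.mat g *ᵥ v₀)) M =
        (2 * (k : ℂ) + 1) * (∑ j ∈ univ.erase p, a p * M p j * b j) ^ k := by
      intro M
      rw [hP1T, ← H10.rou k _ (a p * M p p * b p +
        ∑ i ∈ univ.erase p, ∑ j ∈ univ.erase p, a i * M i j * b j)
        (∑ i ∈ univ.erase p, a i * M i p * b p) ζ hζ]
      refine Finset.sum_congr rfl fun t _ => ?_
      rw [h1, ← mul_pow, hpow, ← step1 p (ζ ^ t) (hzz t) a b M]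
      congr 2
      refine Finset.sum_congr rfl fun i _ => Finset.sum_congr rfl fun j _ => ?_
      rw [cj_dz]
    apply hT.inj
    funext M
    rw [hP2T, map_smul, Pi.smul_apply, smul_eq_mul, hv₀]
    have h3 : ∀ t ∈ range (2 * k + 1), (ζ ^ t) ^ k * T (P1 *ᵥ (ρ.mat g *ᵥ v₀))
        ((((dz q (conj (ζ ^ t)) (hζc t))⁻¹ : UU n) : Matrix (Fin n) (Fin n) ℂ) * M *
          ((dz q (conj (ζ ^ t)) (hζc t) : UU n) : Matrix (Fin n) (Fin n) ℂ)) =
        (2 * (k : ℂ) + 1) * (a p * M p q * b q +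
          (∑ j ∈ (univ.erase p).erase q, a p * M p j * b j) * ζ ^ t + 0 * ζ ^ (2 * t)) ^ k := by
      intro t _
      rw [h2, mul_left_comm, ← mul_pow, zero_mul, add_zero,
        ← step2 p q hpq (ζ ^ t) (hzz t) a b M]
      congr 3
      refine Finset.sum_congr rfl fun j _ => ?_
      rw [cj_dz]
    rw [Finset.sum_congr rfl h3, ← Finset.mul_sum, H10.rou k _ _ _ ζ hζ]
    unfold orb
    rw [ha, hb]
    simp only [inv_one, OneMemClass.coe_one, Matrix.one_mul, Matrix.mul_one]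
    rw [show (conj ((g : Matrix (Fin n) (Fin n) ℂ) p p) * M p q *
      (g : Matrix (Fin n) (Fin n) ℂ) q q) =
      (conj ((g : Matrix (Fin n) (Fin n) ℂ) p p) * (g : Matrix (Fin n) (Fin n) ℂ) q q) * M p q by
      ring, mul_pow]
    ring
  -- all vectors
  have hall : ∀ x : Fin ρ.dim → ℂ, ∃ c : ℂ, (P2 * P1) *ᵥ x = c • v₀ := by
    have h1 : Submodule.span ℂ (Set.range fun g : UU n => ρ.mat g *ᵥ v₀) ≤
        Submodule.comap (Matrix.mulVecLin (P2 * P1)) (Submodule.span ℂ {v₀}) := by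
      rw [Submodule.span_le]
      rintro _ ⟨g, rfl⟩
      show (P2 * P1) *ᵥ (ρ.mat g *ᵥ v₀) ∈ Submodule.span ℂ {v₀}
      rw [← Matrix.mulVec_mulVec, hval]
      exact Submodule.smul_mem _ _ (Submodule.mem_span_singleton_self v₀)
    intro x
    have h2 : x ∈ Submodule.comap (Matrix.mulVecLin (P2 * P1)) (Submodule.span ℂ {v₀}) :=
      h1 (by rw [hspan]; trivial)
    obtain ⟨c, hc⟩ := Submodule.mem_span_singleton.1 h2
    exact ⟨c, hc.symm⟩
  -- the pairing with the extremal vector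
  have heig1 : ∀ (z : ℂ) (hz : ‖z‖ = 1), ρ.mat (dz p z hz) *ᵥ v₀ = (conj z) ^ k • v₀ := by
    intro z hz
    apply hT.inj
    funext M
    rw [hT.equiv, map_smul, Pi.smul_apply, hv₀, smul_eq_mul]
    unfold orb
    simp only [inv_one, OneMemClass.coe_one, Matrix.one_mul, Matrix.mul_one]
    rw [cj_dz, ← mul_pow]
    congr 1
    rw [show dv1 p z p = z from if_pos rfl, show dv1 p z q = 1 from if_neg hpq.symm, mul_one]
  have heig2 : ∀ (z : ℂ) (hz : ‖z‖ = 1), ρ.mat (dz q z hz) *ᵥ v₀ = z ^ k • v₀ := by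
    intro z hz
    apply hT.inj
    funext M
    rw [hT.equiv, map_smul, Pi.smul_apply, hv₀, smul_eq_mul]
    unfold orb
    simp only [inv_one, OneMemClass.coe_one, Matrix.one_mul, Matrix.mul_one]
    rw [cj_dz, ← mul_pow]
    congr 1
    rw [show dv1 q z q = z from if_pos rfl, show dv1 q z p = 1 from if_neg hpq, map_one, one_mul,
      mul_comm]
  have hpair1 : ∀ x : Fin ρ.dim → ℂ, star v₀ ⬝ᵥ (P1 *ᵥ x) = (2 * (k : ℂ) + 1) * (star v₀ ⬝ᵥ x) := by
    intro x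
    rw [hP1, Matrix.sum_mulVec, dotProduct_sum]
    have h1 : ∀ t ∈ range (2 * k + 1), star v₀ ⬝ᵥ
        (((ζ ^ t) ^ k • ρ.mat (dz p (ζ ^ t) (hζt t))) *ᵥ x) = star v₀ ⬝ᵥ x := by
      intro t _
      rw [Matrix.smul_mulVec, dotProduct_smul, smul_eq_mul,
        pair_eig ρ _ v₀ x ((conj (ζ ^ t)) ^ k) ?_ (heig1 _ _), ← mul_assoc, ← mul_pow, hzz,
        one_pow, one_mul]
      exact hkk t
    rw [Finset.sum_congr rfl h1, Finset.sum_const, Finset.card_range, nsmul_eq_mul]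
    push_cast
    ring
  have hpair2 : ∀ x : Fin ρ.dim → ℂ, star v₀ ⬝ᵥ (P2 *ᵥ x) = (2 * (k : ℂ) + 1) * (star v₀ ⬝ᵥ x) := by
    intro x
    rw [hP2, Matrix.sum_mulVec, dotProduct_sum]
    have h1 : ∀ t ∈ range (2 * k + 1), star v₀ ⬝ᵥ
        (((ζ ^ t) ^ k • ρ.mat (dz q (conj (ζ ^ t)) (hζc t))) *ᵥ x) = star v₀ ⬝ᵥ x := by
      intro t _
      rw [Matrix.smul_mulVec, dotProduct_smul, smul_eq_mul,
        pair_eig ρ _ v₀ x ((conj (ζ ^ t)) ^ k) ?_ (heig2 _ _), ← mul_assoc, ← mul_pow, hzz,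
        one_pow, one_mul]
      exact hkk t
    rw [Finset.sum_congr rfl h1, Finset.sum_const, Finset.card_range, nsmul_eq_mul]
    push_cast
    ring
  -- a translate of `w` which is not orthogonal to the extremal vector
  have hex : ∃ g : UU n, star v₀ ⬝ᵥ (ρ.mat g *ᵥ w) ≠ 0 := by
    by_contra hc
    push Not at hc
    have h1 : ∀ x ∈ Submodule.span ℂ (Set.range fun g : UU n => ρ.mat g *ᵥ v₀),
        star w ⬝ᵥ x = 0 := by
      intro x hx
      induction hx using Submodule.span_induction with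
      | mem x hx =>
        obtain ⟨g, rfl⟩ := hx
        have h2 := hc g⁻¹
        have h3 := pair_inv ρ g v₀ (ρ.mat g⁻¹ *ᵥ w)
        rw [Matrix.mulVec_mulVec, ← ρ.mat_mul, mul_inv_cancel, ρ.mat_one, Matrix.one_mulVec,
          h2] at h3
        show star w ⬝ᵥ (ρ.mat g *ᵥ v₀) = 0
        have h4 : star (star (ρ.mat g *ᵥ v₀) ⬝ᵥ w) = star w ⬝ᵥ (ρ.mat g *ᵥ v₀) := by
          rw [star_dotProduct, star_star]
        rw [← h4, h3, star_zero]
      | zero => rw [dotProduct_zero]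
      | add x y _ _ hx hy => rw [dotProduct_add, hx, hy, add_zero]
      | smul c x _ hx => rw [dotProduct_smul, hx, smul_zero]
    have h2 := h1 w (by rw [hspan]; trivial)
    exact hw (zero_of_pair w h2)
  obtain ⟨g, hg⟩ := hex
  obtain ⟨c, hc⟩ := hall (ρ.mat g *ᵥ w)
  have hN : (2 * (k : ℂ) + 1) ≠ 0 := by
    have : ((2 * k + 1 : ℕ) : ℂ) ≠ 0 := by exact_mod_cast (by omega : 2 * k + 1 ≠ 0)
    push_cast at this
    exact this
  have hc0 : c ≠ 0 := by
    intro h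
    rw [h, zero_smul] at hc
    have h1 := hpair2 (P1 *ᵥ (ρ.mat g *ᵥ w))
    rw [hpair1, Matrix.mulVec_mulVec, hc, dotProduct_zero] at h1
    exact (mul_ne_zero hN (mul_ne_zero hN hg)) h1.symm
  -- the average stays in `W`
  have hin : (P2 * P1) *ᵥ (ρ.mat g *ᵥ w) ∈ W := by
    rw [← Matrix.mulVec_mulVec]
    have h1 : P1 *ᵥ (ρ.mat g *ᵥ w) ∈ W := by
      rw [hP1, Matrix.sum_mulVec]
      refine Submodule.sum_mem _ fun t _ => ?_
      rw [Matrix.smul_mulVec]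
      exact Submodule.smul_mem _ _ (hW _ _ (hW _ _ hwW))
    rw [hP2, Matrix.sum_mulVec]
    refine Submodule.sum_mem _ fun t _ => ?_
    rw [Matrix.smul_mulVec]
    exact Submodule.smul_mem _ _ (hW _ _ h1)
  rw [hc] at hin
  have hv₀W : v₀ ∈ W := by
    have := Submodule.smul_mem W c⁻¹ hin
    rwa [smul_smul, inv_mul_cancel₀ hc0, one_smul] at this
  rw [eq_top_iff, ← hspan, Submodule.span_le]
  rintro _ ⟨g', rfl⟩
  exact hW g' _ hv₀W

end Pool.Agent.BSE.H65
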