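import Pool.Agent.BSE.Stmts4
import Pool.Agent.Helper65_BSE.SUP

/-!
# The maximum principle for tuples (MP_3b0ba7_pr, module SU2 of the Bose sector)
-/

open MeasureTheory Matrix Finset
open scoped ComplexConjugate

namespace Pool.Agent.BSE.H65

open Pool.Agent.Helper64_FR Pool.Agent.BSE

namespace S2

open S

variable {n k : ℕ}

/-- the maximum of the oscillations -/
noncomputable def MM (c : Fin k → Fin n → ℝ) : ℝ := ‖fun s => osc (c s)‖

/-- the sum of the quartics -/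
noncomputable def GS (c : Fin k → Fin n → ℝ) : ℝ := ∑ s, gg (c s)

theorem MM_nonneg (c : Fin k → Fin n → ℝ) : 0 ≤ MM c := norm_nonneg _

theorem osc_le_MM (c : Fin k → Fin n → ℝ) (s : Fin k) : osc (c s) ≤ MM c := by
  have := norm_le_pi_norm (fun s => osc (c s)) s
  rw [Real.norm_of_nonneg (osc_nonneg _)] at this
  exact this

theorem MM_le {c : Fin k → Fin n → ℝ} {r : ℝ} (hr : 0 ≤ r) (h : ∀ s, osc (c s) ≤ r) : MM c ≤ r := by
  unfold MM
  rw [pi_norm_le_iff_of_nonneg hr]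
  intro s
  rw [Real.norm_of_nonneg (osc_nonneg _)]
  exact h s

theorem GS_nonneg (c : Fin k → Fin n → ℝ) : 0 ≤ GS c :=
  Finset.sum_nonneg fun s _ => gg_nonneg _

theorem continuous_MM : Continuous (MM : (Fin k → Fin n → ℝ) → ℝ) := by
  unfold MM
  exact Continuous.norm (continuous_pi fun s => continuous_osc.comp (continuous_apply s))

theorem continuous_GS : Continuous (GS : (Fin k → Fin n → ℝ) → ℝ) := by
  unfold GS
  exact continuous_finsetSum _ fun s _ => continuous_gg.comp (continuous_apply s)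

theorem osc_aff (c : Fin n → ℝ) (r t : ℝ) (hr : 0 ≤ r) :
    osc (fun i => r * (c i - t)) = r * osc c := by
  have h1 := osc_smul (fun i => c i - t) r hr
  rw [osc_sub_const] at h1
  exact h1

theorem MM_aff (c : Fin k → Fin n → ℝ) (r : ℝ) (t : Fin k → ℝ) (hr : 0 ≤ r) :
    MM (fun s i => r * (c s i - t s)) = r * MM c := by
  unfold MM
  have : (fun s => osc (fun i => r * (c s i - t s))) = r • (fun s => osc (c s)) := by
    funext s
    rw [osc_aff _ _ _ hr]
    rfl
  rw [this, norm_smul, Real.norm_of_nonneg hr]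

theorem GS_aff (c : Fin k → Fin n → ℝ) (r : ℝ) (t : Fin k → ℝ) :
    GS (fun s i => r * (c s i - t s)) = r ^ 4 * GS c := by
  unfold GS
  rw [Finset.mul_sum]
  exact Finset.sum_congr rfl fun s _ => gg_aff (c s) r (t s)

theorem GS_pos (c : Fin k → Fin n → ℝ) (h : 0 < MM c) : 0 < GS c := by
  by_contra hc
  have h0 : GS c = 0 := le_antisymm (not_lt.1 hc) (GS_nonneg c)
  unfold GS at h0
  rw [Finset.sum_eq_zero_iff_of_nonneg fun s _ => gg_nonneg _] at h0
  have h1 : MM c ≤ 0 := by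
    refine MM_le le_rfl fun s => ?_
    by_contra h2
    obtain ⟨i, m, him⟩ := exists_ne_of_osc_pos (c s) (not_le.1 h2)
    have h3 := gg_pos (c s) i m him
    rw [h0 s (Finset.mem_univ s)] at h3
    exact lt_irrefl _ h3
  linarith

theorem ridge_continuous {f : (Fin k → Fin n → ℝ) → ℂ} (hf : IsRidge2 f) : Continuous f := by
  obtain ⟨N, a, x, -, hfx⟩ := hf
  have : f = fun c : Fin k → Fin n → ℝ => ∑ t : Fin N, a t * ∏ s, ∑ i, x t s i * (c s i : ℂ) :=
    funext hfx
  rw [this]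
  refine continuous_finsetSum _ fun t _ => continuous_const.mul ?_
  refine continuous_finsetProd _ fun s _ => continuous_finsetSum _ fun i _ =>
    continuous_const.mul ?_
  exact Complex.continuous_ofReal.comp (continuous_apply_apply s i)

theorem ridge_aff {f : (Fin k → Fin n → ℝ) → ℂ} (hf : IsRidge2 f) (c : Fin k → Fin n → ℝ)
    (r : ℝ) (t : Fin k → ℝ) : f (fun s i => r * (c s i - t s)) = (r : ℂ) ^ k * f c := by
  obtain ⟨N, a, x, hx, hfx⟩ := hf
  rw [hfx, hfx, Finset.mul_sum]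
  refine Finset.sum_congr rfl fun l _ => ?_
  have h0 : ∀ s, ∑ i, x l s i * ((r * (c s i - t s) : ℝ) : ℂ) =
      (r : ℂ) * ∑ i, x l s i * (c s i : ℂ) := by
    intro s
    push_cast
    have h1 : ∀ i, x l s i * ((r : ℂ) * ((c s i : ℂ) - (t s : ℂ))) =
        (r : ℂ) * (x l s i * (c s i : ℂ)) - (r : ℂ) * (t s : ℂ) * x l s i := fun i => by ring
    rw [Finset.sum_congr rfl fun i _ => h1 i, Finset.sum_sub_distrib, ← Finset.mul_sum,
      ← Finset.mul_sum, hx l s]
    ring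
  rw [Finset.prod_congr rfl fun s _ => h0 s, Finset.prod_mul_distrib, Finset.prod_const,
    Finset.card_univ, Fintype.card_fin]
  ring

theorem ridge_zero (hk : k ≠ 0) {f : (Fin k → Fin n → ℝ) → ℂ} (hf : IsRidge2 f)
    (c : Fin k → Fin n → ℝ) (i0 : Fin n) (hc : MM c = 0) : f c = 0 := by
  have hz : ∀ s i, c s i - c s i0 = 0 := by
    intro s i
    have h1 := S.abs_sub_le_osc (c s) i i0
    have h2 := osc_le_MM c s
    rw [hc] at h2
    exact abs_nonpos_iff.mp (h1.trans h2)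
  have h1 := ridge_aff hf c 0 (fun s => c s i0)
  have h2 := ridge_aff hf c 1 (fun s => c s i0)
  have h3 : (fun s i => (0 : ℝ) * (c s i - c s i0)) = fun _ _ => (0 : ℝ) := by
    funext s i; ring
  have h4 : (fun s i => (1 : ℝ) * (c s i - c s i0)) = fun _ _ => (0 : ℝ) := by
    funext s i; rw [hz, mul_zero]
  rw [h3] at h1
  rw [h4, h1] at h2
  have h7 : ((0 : ℝ) : ℂ) ^ k = 0 := by simp [hk]
  rw [h7] at h2
  simpa using h2.symm

/-- the shell -/
def Sh (n k : ℕ) (i0 : Fin n) : Set (Fin k → Fin n → ℝ) := {c | MM c = 1 ∧ ∀ s, c s i0 = 0}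

theorem isCompact_Sh (i0 : Fin n) : IsCompact (Sh n k i0) := by
  have hK : IsCompact (Metric.closedBall (0 : Fin k → Fin n → ℝ) 1) := isCompact_closedBall _ _
  refine IsCompact.of_isClosed_subset hK ?_ ?_
  · have h1 : IsClosed {c : Fin k → Fin n → ℝ | ∀ s, c s i0 = 0} := by
      rw [Set.ofPred_forall]
      exact isClosed_iInter fun s => isClosed_eq (continuous_apply_apply s i0) continuous_const
    exact (isClosed_eq continuous_MM continuous_const).inter h1
  · rintro c ⟨h1, h2⟩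
    rw [mem_closedBall_zero_iff, pi_norm_le_iff_of_nonneg zero_le_one]
    intro s
    rw [pi_norm_le_iff_of_nonneg zero_le_one]
    intro i
    have h3 := S.abs_sub_le_osc (c s) i i0
    have h4 := osc_le_MM c s
    rw [h1] at h4
    rw [h2 s, sub_zero] at h3
    exact h3.trans h4

theorem norm_mem_Sh (i0 : Fin n) (c : Fin k → Fin n → ℝ) (h : 0 < MM c) :
    (fun s i => (MM c)⁻¹ * (c s i - c s i0)) ∈ Sh n k i0 := by
  constructor
  · rw [MM_aff c (MM c)⁻¹ (fun s => c s i0) (inv_nonneg.mpr h.le), inv_mul_cancel₀ h.ne']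
  · intro s
    simp

/-- the extremal point -/
theorem extremal (hk : 4 ≤ k) {f : (Fin k → Fin n → ℝ) → ℂ} (hf : IsRidge2 f)
    (h0 : ∃ c, f c ≠ 0) : ∃ (c0 : Fin k → Fin n → ℝ) (R : ℝ), MM c0 = 1 ∧ 0 < R ∧
      ‖f c0‖ = R * GS c0 ∧ 0 < GS c0 ∧ ∀ c, ‖f c‖ ≤ R * GS c * MM c ^ (k - 4) := by
  obtain ⟨c1, hc1⟩ := h0
  have hn : Nonempty (Fin n) := by
    by_contra hn
    rw [not_nonempty_iff] at hn
    obtain ⟨N, a, x, hx, hfx⟩ := hf
    apply hc1
    rw [hfx]
    refine Finset.sum_eq_zero fun t _ => ?_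
    have hs : (⟨0, by omega⟩ : Fin k) ∈ (Finset.univ : Finset (Fin k)) := Finset.mem_univ _
    rw [Finset.prod_eq_zero hs (by rw [Finset.univ_eq_empty (α := Fin n), Finset.sum_empty]),
      mul_zero]
  obtain ⟨i0⟩ := hn
  have hosc1 : 0 < MM c1 := by
    rcases (MM_nonneg c1).eq_or_lt with h | h
    · exact absurd (ridge_zero (by omega) hf c1 i0 h.symm) hc1
    · exact h
  have hgpos : ∀ c ∈ Sh n k i0, 0 < GS c := by
    rintro c ⟨h1, -⟩
    exact GS_pos c (by rw [h1]; exact one_pos)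
  have hcont : ContinuousOn (fun c => ‖f c‖ / GS c) (Sh n k i0) :=
    ((ridge_continuous hf).norm.continuousOn).div continuous_GS.continuousOn
      fun c hc => (hgpos c hc).ne'
  have hne : (Sh n k i0).Nonempty := ⟨_, norm_mem_Sh i0 c1 hosc1⟩
  obtain ⟨c0, hc0, hmax⟩ := (isCompact_Sh i0).exists_isMaxOn hne hcont
  have hg0 := hgpos c0 hc0
  have hmax' : ∀ c ∈ Sh n k i0, ‖f c‖ / GS c ≤ ‖f c0‖ / GS c0 := fun c hc => hmax hc
  have hval : ∀ c : Fin k → Fin n → ℝ, 0 < MM c →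
      ‖f c‖ ≤ (‖f c0‖ / GS c0) * GS c * MM c ^ (k - 4) := by
    intro c hc
    have h1 := hmax' _ (norm_mem_Sh i0 c hc)
    rw [ridge_aff hf c _ (fun s => c s i0), GS_aff c _ (fun s => c s i0)] at h1
    have h2 : 0 < GS c := GS_pos c hc
    have h3 : ‖((((MM c)⁻¹ : ℝ) : ℂ)) ^ k * f c‖ = (MM c)⁻¹ ^ k * ‖f c‖ := by
      rw [norm_mul, norm_pow, Complex.norm_real, Real.norm_of_nonneg (inv_nonneg.mpr hc.le)]
    rw [h3, div_le_iff₀ (by positivity)] at h1
    have h4 : MM c ^ k = MM c ^ (k - 4) * MM c ^ 4 := by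
      rw [← pow_add]
      congr 1
      omega
    have h5 : ‖f c‖ = MM c ^ k * ((MM c)⁻¹ ^ k * ‖f c‖) := by
      rw [← mul_assoc, ← mul_pow, mul_inv_cancel₀ hc.ne', one_pow, one_mul]
    rw [h5]
    calc MM c ^ k * ((MM c)⁻¹ ^ k * ‖f c‖)
        ≤ MM c ^ k * (‖f c0‖ / GS c0 * ((MM c)⁻¹ ^ 4 * GS c)) :=
          mul_le_mul_of_nonneg_left h1 (by positivity)
      _ = (‖f c0‖ / GS c0) * GS c * MM c ^ (k - 4) * (MM c ^ 4 * (MM c)⁻¹ ^ 4) := by
          rw [h4]; ring
      _ = (‖f c0‖ / GS c0) * GS c * MM c ^ (k - 4) := by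
          rw [← mul_pow, mul_inv_cancel₀ hc.ne', one_pow, mul_one]
  have hR : 0 < ‖f c0‖ / GS c0 := by
    have h1 := hval c1 hosc1
    have h2 : 0 < ‖f c1‖ := norm_pos_iff.mpr hc1
    by_contra h
    push Not at h
    have h3 : (‖f c0‖ / GS c0) * GS c1 * MM c1 ^ (k - 4) ≤ 0 := by
      have h4 : 0 ≤ GS c1 * MM c1 ^ (k - 4) := mul_nonneg (GS_nonneg _) (by positivity)
      rw [mul_assoc]
      exact mul_nonpos_of_nonpos_of_nonneg h h4
    linarith
  refine ⟨c0, ‖f c0‖ / GS c0, hc0.1, hR, (div_mul_cancel₀ _ hg0.ne').symm, hg0, ?_⟩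
  intro c
  rcases (MM_nonneg c).eq_or_lt with h | h
  · rw [ridge_zero (by omega) hf c i0 h.symm, norm_zero]
    exact mul_nonneg (mul_nonneg hR.le (GS_nonneg _)) (pow_nonneg (MM_nonneg c) _)
  · exact hval c h

theorem continuous_TB2 (B : Finset (Fin n)) (c : Fin k → Fin n → ℝ) :
    Continuous fun A : UB B => fun s => TB B (A : UU n) (c s) :=
  continuous_pi fun s => continuous_TB B (c s)

end S2

open S S2 in
theorem su2 (hCER : CERStmt) (hOSC : OSCStmt) (hCE1 : CE1Stmt) : SU2Stmt := by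
  intro n k hk w hw μ x f hμ hf h0 hE
  obtain ⟨c0, R, hosc, hR, hfc, hg, hall⟩ := S2.extremal hk hf h0
  have hF : 0 < ‖f c0‖ := by rw [hfc]; positivity
  have hE0 := hE c0
  -- the averages of the quartics
  have hGS : ∀ B : Finset (Fin n), ∫ A : UB B, GS (fun s => TB B (A : UU n) (c0 s)) ∂(haarB B) =
      ∑ s, ∫ A : UB B, gg (TB B (A : UU n) (c0 s)) ∂(haarB B) := by
    intro B
    unfold GS
    rw [integral_finsetSum]
    intro s _
    exact S.integrable_of_continuous B (continuous_gg.comp (continuous_TB B (c0 s)))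
  -- the bound of the averages
  have hI : ∀ B : Finset (Fin n), ‖∫ A : UB B, f (fun s => TB B (A : UU n) (c0 s)) ∂(haarB B)‖ ≤
      R * ∫ A : UB B, GS (fun s => TB B (A : UU n) (c0 s)) ∂(haarB B) := by
    intro B
    rw [← integral_const_mul]
    refine norm_integral_le_of_norm_le (S.integrable_of_continuous B
      (continuous_const.mul (continuous_GS.comp (continuous_TB2 B c0)))) ?_
    refine Filter.Eventually.of_forall fun A => ?_
    refine (hall _).trans ?_
    have h1 : MM (fun s => TB B (A : UU n) (c0 s)) ≤ 1 := by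
      refine MM_le zero_le_one fun s => ?_
      exact (hOSC n B (A : UU n) A.2 (c0 s)).trans (hosc ▸ osc_le_MM c0 s)
    have h2 : MM (fun s => TB B (A : UU n) (c0 s)) ^ (k - 4) ≤ 1 :=
      pow_le_one₀ (MM_nonneg _) h1
    exact mul_le_of_le_one_right (mul_nonneg hR.le (GS_nonneg _)) h2
  -- real part of the eigenvalue equation
  have h1 : x * ‖f c0‖ ^ 2 = ∑ B : Finset (Fin n), w B * (‖f c0‖ ^ 2 -
      (conj (f c0) * ∫ A : UB B, f (fun s => TB B (A : UU n) (c0 s)) ∂(haarB B)).re) := by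
    have h2 : conj (f c0) * ((x : ℂ) * f c0) = ((x * ‖f c0‖ ^ 2 : ℝ) : ℂ) := by
      rw [mul_left_comm, Complex.conj_mul']
      push_cast
      rfl
    have h3 := congrArg Complex.re (congrArg (fun z => conj (f c0) * z) hE0)
    rw [h2, Complex.ofReal_re, Finset.mul_sum, Complex.re_sum] at h3
    rw [← h3]
    refine Finset.sum_congr rfl fun B _ => ?_
    have h4 : conj (f c0) * ((w B : ℂ) * (f c0 -
        ∫ A : UB B, f (fun s => TB B (A : UU n) (c0 s)) ∂(haarB B))) =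
        (w B : ℂ) * (((‖f c0‖ ^ 2 : ℝ) : ℂ) -
          conj (f c0) * ∫ A : UB B, f (fun s => TB B (A : UU n) (c0 s)) ∂(haarB B)) := by
      rw [mul_left_comm, mul_sub, Complex.conj_mul']
      push_cast
      rfl
    rw [h4, Complex.re_ofReal_mul, Complex.sub_re, Complex.ofReal_re]
  have h2 : ∑ B : Finset (Fin n), w B * (‖f c0‖ * (R * (GS c0 -
      ∫ A : UB B, GS (fun s => TB B (A : UU n) (c0 s)) ∂(haarB B)))) ≤ x * ‖f c0‖ ^ 2 := by
    rw [h1]
    refine Finset.sum_le_sum fun B _ => mul_le_mul_of_nonneg_left ?_ (hw B)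
    have h3 : (conj (f c0) * ∫ A : UB B, f (fun s => TB B (A : UU n) (c0 s)) ∂(haarB B)).re ≤
        ‖f c0‖ * (R * ∫ A : UB B, GS (fun s => TB B (A : UU n) (c0 s)) ∂(haarB B)) := by
      refine (Complex.re_le_norm _).trans ?_
      rw [norm_mul, Complex.norm_conj]
      exact mul_le_mul_of_nonneg_left (hI B) hF.le
    have h4 : ‖f c0‖ * (R * (GS c0 -
        ∫ A : UB B, GS (fun s => TB B (A : UU n) (c0 s)) ∂(haarB B))) =
        ‖f c0‖ * (R * GS c0) - ‖f c0‖ *
          (R * ∫ A : UB B, GS (fun s => TB B (A : UU n) (c0 s)) ∂(haarB B)) := by ring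
    rw [h4, ← hfc]
    nlinarith [h3]
  have h3 : ∑ B : Finset (Fin n), w B * (GS c0 -
      ∫ A : UB B, GS (fun s => TB B (A : UU n) (c0 s)) ∂(haarB B)) ≥ μ * GS c0 := by
    have hs : ∀ s : Fin k, μ * gg (c0 s) ≤ ∑ B : Finset (Fin n), w B * (gg (c0 s) -
        ∫ A : UB B, gg (TB B (A : UU n) (c0 s)) ∂(haarB B)) := by
      intro s
      have h4 : ∑ B : Finset (Fin n), w B * ∑ m, ∑ i,
          H47.dv B (fun j => (c0 s j - c0 s m) ^ 2) i ^ 2 ≤
          ∑ B : Finset (Fin n), w B * (gg (c0 s) -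
            ∫ A : UB B, gg (TB B (A : UU n) (c0 s)) ∂(haarB B)) :=
        Finset.sum_le_sum fun B _ => mul_le_mul_of_nonneg_left (hCER n B (c0 s)) (hw B)
      have h5 : ∑ B : Finset (Fin n), w B * ∑ m, ∑ i,
          H47.dv B (fun j => (c0 s j - c0 s m) ^ 2) i ^ 2 =
          ∑ m, ∑ B : Finset (Fin n), w B * ∑ i,
            H47.dv B (fun j => (c0 s j - c0 s m) ^ 2) i ^ 2 := by
        rw [Finset.sum_comm]
        exact Finset.sum_congr rfl fun B _ => Finset.mul_sum _ _ _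
      have h6 : ∑ m, μ * ∑ i, H47.dv Finset.univ (fun j => (c0 s j - c0 s m) ^ 2) i ^ 2 ≤
          ∑ m, ∑ B : Finset (Fin n), w B * ∑ i,
            H47.dv B (fun j => (c0 s j - c0 s m) ^ 2) i ^ 2 :=
        Finset.sum_le_sum fun m _ => hμ _
      have h7 : ∑ m, μ * ∑ i, H47.dv Finset.univ (fun j => (c0 s j - c0 s m) ^ 2) i ^ 2 =
          μ * gg (c0 s) := by
        rw [← Finset.mul_sum, hCE1 n Finset.univ (c0 s)]
        rfl
      linarith
    have h8 : μ * GS c0 = ∑ s, μ * gg (c0 s) := by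
      unfold GS
      rw [Finset.mul_sum]
    have h9 : ∑ B : Finset (Fin n), w B * (GS c0 -
        ∫ A : UB B, GS (fun s => TB B (A : UU n) (c0 s)) ∂(haarB B)) =
        ∑ s, ∑ B : Finset (Fin n), w B * (gg (c0 s) -
          ∫ A : UB B, gg (TB B (A : UU n) (c0 s)) ∂(haarB B)) := by
      rw [Finset.sum_comm]
      refine Finset.sum_congr rfl fun B _ => ?_
      rw [hGS B, ← Finset.mul_sum, Finset.sum_sub_distrib]
      rfl
    rw [h8, h9]
    exact Finset.sum_le_sum fun s _ => hs s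
  have h4 : ∑ B : Finset (Fin n), w B * (‖f c0‖ * (R * (GS c0 -
      ∫ A : UB B, GS (fun s => TB B (A : UU n) (c0 s)) ∂(haarB B)))) = ‖f c0‖ * R *
      ∑ B : Finset (Fin n), w B * (GS c0 -
      ∫ A : UB B, GS (fun s => TB B (A : UU n) (c0 s)) ∂(haarB B)) := by
    rw [Finset.mul_sum]
    exact Finset.sum_congr rfl fun B _ => by ring
  rw [h4] at h2
  have h5 : ‖f c0‖ * R * (μ * GS c0) ≤ x * ‖f c0‖ ^ 2 :=
    (mul_le_mul_of_nonneg_left h3 (by positivity)).trans h2
  have h6 : ‖f c0‖ * R * (μ * GS c0) = μ * ‖f c0‖ ^ 2 := by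
    rw [hfc]; ring
  rw [h6] at h5
  exact le_of_mul_le_mul_right h5 (by positivity)

end Pool.Agent.BSE.H65
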