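import Pool.Agent.BSE.Stmts5

/-!
# Row E2B: the remaining inequality
-/

set_option autoImplicit false

namespace Pool.Agent.BSE.H65e

open Finset Pool.Agent.BSE

variable {n : ℕ}

theorem m6_swap (i j k : Fin n) : m6 i k j = m6 i j k := by
  unfold m6
  have e1 : (if k = j then (1 : ℝ) else 0) = if j = k then 1 else 0 :=
    if_congr eq_comm rfl rfl
  have e2 : (if i = k ∧ k = j then (2 : ℝ) else 0) = if i = j ∧ j = k then 2 else 0 :=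
    if_congr ⟨fun h => ⟨h.1.trans h.2, h.2.symm⟩, fun h => ⟨h.1.trans h.2, h.2.symm⟩⟩ rfl rfl
  rw [e1, e2]
  ring

theorem m6_cyc (i j k : Fin n) : m6 j k i = m6 i j k := by
  unfold m6
  have e1 : (if k = i then (1 : ℝ) else 0) = if i = k then 1 else 0 :=
    if_congr eq_comm rfl rfl
  have e3 : (if j = i then (1 : ℝ) else 0) = if i = j then 1 else 0 :=
    if_congr eq_comm rfl rfl
  have e2 : (if j = k ∧ k = i then (2 : ℝ) else 0) = if i = j ∧ j = k then 2 else 0 :=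
    if_congr ⟨fun h => ⟨(h.1.trans h.2).symm, h.1⟩, fun h => ⟨h.2, (h.1.trans h.2).symm⟩⟩ rfl rfl
  rw [e1, e2, e3]
  ring

theorem nF_swap {φ : Fin n → Fin n → Fin n → ℝ} (h : Mix3 φ) (x y z : Fin n) :
    nF φ x z y = nF φ x y z := by
  unfold nF
  rw [m6_swap, h.1 x y z]

theorem nF_cyc {φ : Fin n → Fin n → Fin n → ℝ} (h : Mix3 φ) (x y z : Fin n) :
    nF φ x y z + nF φ y z x + nF φ z x y = 0 := by
  unfold nF
  rw [m6_cyc x y z, m6_cyc z x y |>.symm, ← add_div, ← add_div, h.2.1 x y z, zero_div]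

/-- Cauchy's inequality with the weights `|B|`, `1`, …, `1`. -/
theorem cauchy (B : Finset (Fin n)) (hB : B.Nonempty) (r : ℝ) (t : Fin n → ℝ) :
    (r + ∑ w ∈ Bᶜ, t w) ^ 2 ≤ (n : ℝ) * (r ^ 2 / B.card + ∑ w ∈ Bᶜ, t w ^ 2) := by
  have hβ : (0 : ℝ) < B.card := by
    have := hB.card_pos
    exact_mod_cast this
  have hn : (n : ℝ) = B.card + Bᶜ.card := by
    have h := Finset.card_add_card_compl B
    rw [Fintype.card_fin] at h
    exact_mod_cast h.symm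
  have h1 : (∑ w ∈ Bᶜ, t w) ^ 2 ≤ (Bᶜ.card : ℝ) * ∑ w ∈ Bᶜ, t w ^ 2 :=
    sq_sum_le_card_mul_sum_sq
  have hQ : 0 ≤ ∑ w ∈ Bᶜ, t w ^ 2 := Finset.sum_nonneg fun w _ => sq_nonneg _
  obtain ⟨β, hβe⟩ : ∃ β : ℝ, β = (B.card : ℝ) := ⟨_, rfl⟩
  obtain ⟨γ, hγe⟩ : ∃ γ : ℝ, γ = (Bᶜ.card : ℝ) := ⟨_, rfl⟩
  obtain ⟨S, hS⟩ : ∃ S : ℝ, S = ∑ w ∈ Bᶜ, t w := ⟨_, rfl⟩
  obtain ⟨Q, hQe⟩ : ∃ Q : ℝ, Q = ∑ w ∈ Bᶜ, t w ^ 2 := ⟨_, rfl⟩
  obtain ⟨R, hR⟩ : ∃ R : ℝ, R = r ^ 2 / β := ⟨_, rfl⟩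
  have hγ : 0 ≤ γ := by rw [hγe]; positivity
  rw [← hγe, ← hS, ← hQe] at h1
  rw [hn, ← hβe, ← hγe, ← hS, ← hQe, ← hR]
  rw [← hQe] at hQ
  rw [← hβe] at hβ
  have hrR : r ^ 2 = β * R := by rw [hR]; field_simp
  have hR0 : 0 ≤ R := by rw [hR]; positivity
  have h2 : (2 * r * S) ^ 2 ≤ (γ * R + β * Q) ^ 2 := by
    have h3 : (2 * r * S) ^ 2 = 4 * (β * R) * S ^ 2 := by rw [← hrR]; ring
    rw [h3]
    have h4 : 4 * (β * R) * S ^ 2 ≤ 4 * (β * R) * (γ * Q) :=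
      mul_le_mul_of_nonneg_left h1 (by positivity)
    have h5 : 0 ≤ (γ * R - β * Q) ^ 2 := sq_nonneg _
    have h6 : (γ * R + β * Q) ^ 2 = (γ * R - β * Q) ^ 2 + 4 * (β * R) * (γ * Q) := by ring
    linarith
  have h3 : 2 * r * S ≤ γ * R + β * Q :=
    (le_abs_self _).trans (abs_le_of_sq_le_sq h2 (by positivity))
  have h4 : (β + γ) * (R + Q) = β * R + (γ * R + β * Q) + γ * Q := by ring
  rw [h4, ← hrR]
  have h5 : (r + S) ^ 2 = r ^ 2 + 2 * r * S + S ^ 2 := by ring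
  rw [h5]
  linarith

theorem swap3 (B C : Finset (Fin n)) (h : Fin n → Fin n → Fin n → ℝ) :
    ∑ y ∈ B, ∑ z ∈ B, ∑ w ∈ C, h w y z = ∑ w ∈ C, ∑ y ∈ B, ∑ z ∈ B, h w y z := by
  have h1 : ∀ y ∈ B, ∑ z ∈ B, ∑ w ∈ C, h w y z = ∑ w ∈ C, ∑ z ∈ B, h w y z :=
    fun y _ => Finset.sum_comm
  rw [Finset.sum_congr rfl h1, Finset.sum_comm]

/-- Row E2B. -/
theorem e2b (q2b : Q2BStmt) (q3b : Q3BStmt) (cnb : CNBStmt) : E2BStmt := by
  intro n B hB φ hφ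
  have hsw := nF_swap hφ
  have hcy := nF_cyc hφ
  have Q3 := q3b n B hB φ hφ
  obtain ⟨c1, -, c3, c4⟩ := cnb n φ hφ
  obtain ⟨F, hF⟩ : ∃ F : Fin n → Fin n → Fin n → ℝ, F = nF φ := ⟨_, rfl⟩
  rw [← hF] at hsw hcy Q3 c1 c3 c4
  rw [← hF]
  have c4' := c4 B
  have hβ : (0 : ℝ) < B.card := by
    have := hB.card_pos
    exact_mod_cast this
  have hn : (0 : ℝ) < n := by
    have h := Finset.card_add_card_compl B
    rw [Fintype.card_fin] at h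
    have h1 := hB.card_pos
    have h2 : 0 < n := by omega
    exact_mod_cast h2
  obtain ⟨q, hq⟩ : ∃ q : Fin n → ℝ, q = fun w =>
    (∑ x ∈ B, ∑ y ∈ B, m2 x y * F w x y) / ((B.card : ℝ) * (B.card + 1)) := ⟨_, rfl⟩
  have hq0 : ∑ w ∈ Bᶜ, q w = 0 := by
    rw [hq]
    show ∑ w ∈ Bᶜ, (∑ x ∈ B, ∑ y ∈ B, m2 x y * F w x y) / ((B.card : ℝ) * (B.card + 1)) = 0
    rw [← Finset.sum_div, c4', zero_div]
  have hk : ∀ w x y, -(F w x y) / 2 + (F x y w - F y x w) / 2 = F x y w := by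
    intro w x y
    have h1 := hcy x y w
    have h2 := hsw y x w
    -- F x y w + F y w x + F w x y = 0, F y w x = F y x w
    have h3 : F w x y = -(F x y w) - F y x w := by linarith
    rw [h3]
    ring
  have Q2 : ∀ w, 3 / 4 * ∑ x ∈ B, ∑ y ∈ B, (if x = y then 0 else (F w x y - q w) ^ 2) +
      1 / 3 * ∑ x ∈ B, ∑ y ∈ B, ((F x y w - F y x w) / 2) ^ 2 ≤
    ∑ x ∈ B, ∑ y ∈ B, m2 x y * (F w x y ^ 2 + 2 * F x y w ^ 2) -
      ((∑ x ∈ B, ∑ y ∈ B, m2 x y * F w x y) ^ 2 +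
        2 * (∑ x ∈ B, ∑ y ∈ B, m2 x y * F x y w) ^ 2) / ((B.card : ℝ) * (B.card + 1)) -
      ∑ y ∈ B, (3 / 2 * vb B (fun x => F x y w) +
        1 / 6 * vb B (fun x => F y x w - F w x y)) := by
    intro w
    have h := q2b n B hB (fun x y => F w x y) (fun x y => (F x y w - F y x w) / 2)
      (fun x y => (hsw w y x)) (fun x y => by ring) (q w) (by rw [hq])
    simp only [hk] at h
    exact h
  have key : ∀ y z, 3 / (4 * (n : ℝ)) * ((F y z z ^ 2 + F z y y ^ 2) / 2) ≤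
      3 / (4 * (B.card : ℝ)) * (∑ x ∈ B, F x y z) ^ 2 +
      1 / (12 * (B.card : ℝ)) * (∑ x ∈ B, (F y x z - F z x y)) ^ 2 +
      ∑ w ∈ Bᶜ, (3 / 4 * (if y = z then 0 else (F w y z - q w) ^ 2) +
        1 / 3 * ((F y z w - F z y w) / 2) ^ 2) := by
    intro y z
    by_cases hyz : y = z
    · subst hyz
      have h0 : F y y y = 0 := by
        have := hcy y y y
        linarith
      rw [h0]
      have h1 : 3 / (4 * (n : ℝ)) * (((0 : ℝ) ^ 2 + 0 ^ 2) / 2) = 0 := by ring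
      rw [h1]
      have h2 : 0 ≤ ∑ w ∈ Bᶜ, (3 / 4 * (if y = y then (0 : ℝ) else (F w y y - q w) ^ 2) +
        1 / 3 * ((F y y w - F y y w) / 2) ^ 2) := by
        refine Finset.sum_nonneg fun w _ => ?_
        rw [if_pos rfl]
        positivity
      have h3 : 0 ≤ 3 / (4 * (B.card : ℝ)) * (∑ x ∈ B, F x y y) ^ 2 := by positivity
      have h4 : 0 ≤ 1 / (12 * (B.card : ℝ)) * (∑ x ∈ B, (F y x y - F y x y)) ^ 2 := by positivity
      linarith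
    · have e1 : (F y z z + F z y y) / 2 = ∑ x ∈ B, F x y z + ∑ w ∈ Bᶜ, (F w y z - q w) := by
        rw [Finset.sum_sub_distrib, hq0, sub_zero, Finset.sum_add_sum_compl]
        exact (c1 y z hyz).symm
      have e2 : -(3 / 2) * (F y z z - F z y y) = ∑ x ∈ B, (F y x z - F z x y) +
          ∑ w ∈ Bᶜ, (F y z w - F z y w) := by
        rw [← c3 y z, ← Finset.sum_add_sum_compl B (fun x => F y x z - F z x y)]
        congr 1
        refine Finset.sum_congr rfl fun w _ => ?_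
        rw [hsw y z w, hsw z y w]
      have i1 := cauchy B hB (∑ x ∈ B, F x y z) (fun w => F w y z - q w)
      rw [← e1] at i1
      have i2 := cauchy B hB (∑ x ∈ B, (F y x z - F z x y)) (fun w => F y z w - F z y w)
      rw [← e2] at i2
      have e3 : ∑ w ∈ Bᶜ, (3 / 4 * (if y = z then 0 else (F w y z - q w) ^ 2) +
        1 / 3 * ((F y z w - F z y w) / 2) ^ 2) =
          3 / 4 * ∑ w ∈ Bᶜ, (F w y z - q w) ^ 2 + 1 / 12 * ∑ w ∈ Bᶜ, (F y z w - F z y w) ^ 2 := by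
        rw [Finset.mul_sum, Finset.mul_sum, ← Finset.sum_add_distrib]
        refine Finset.sum_congr rfl fun w _ => ?_
        rw [if_neg hyz]
        ring
      rw [e3]
      have j1 : 3 / (4 * (n : ℝ)) * ((F y z z + F z y y) / 2) ^ 2 ≤
          3 / (4 * (n : ℝ)) * ((n : ℝ) * ((∑ x ∈ B, F x y z) ^ 2 / B.card +
            ∑ w ∈ Bᶜ, (F w y z - q w) ^ 2)) := mul_le_mul_of_nonneg_left i1 (by positivity)
      have j2 : 1 / (12 * (n : ℝ)) * (-(3 / 2) * (F y z z - F z y y)) ^ 2 ≤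
          1 / (12 * (n : ℝ)) * ((n : ℝ) * ((∑ x ∈ B, (F y x z - F z x y)) ^ 2 / B.card +
            ∑ w ∈ Bᶜ, (F y z w - F z y w) ^ 2)) := mul_le_mul_of_nonneg_left i2 (by positivity)
      have f1 : 3 / (4 * (n : ℝ)) * ((n : ℝ) * ((∑ x ∈ B, F x y z) ^ 2 / B.card +
            ∑ w ∈ Bᶜ, (F w y z - q w) ^ 2)) = 3 / (4 * (B.card : ℝ)) * (∑ x ∈ B, F x y z) ^ 2 +
            3 / 4 * ∑ w ∈ Bᶜ, (F w y z - q w) ^ 2 := by
        field_simp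
      have f2 : 1 / (12 * (n : ℝ)) * ((n : ℝ) * ((∑ x ∈ B, (F y x z - F z x y)) ^ 2 / B.card +
            ∑ w ∈ Bᶜ, (F y z w - F z y w) ^ 2)) =
            1 / (12 * (B.card : ℝ)) * (∑ x ∈ B, (F y x z - F z x y)) ^ 2 +
            1 / 12 * ∑ w ∈ Bᶜ, (F y z w - F z y w) ^ 2 := by
        field_simp
      have f3 : 3 / (4 * (n : ℝ)) * ((F y z z ^ 2 + F z y y ^ 2) / 2) =
          3 / (4 * (n : ℝ)) * ((F y z z + F z y y) / 2) ^ 2 +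
          1 / (12 * (n : ℝ)) * (-(3 / 2) * (F y z z - F z y y)) ^ 2 := by
        field_simp
        ring
      rw [f3]
      rw [f1] at j1
      rw [f2] at j2
      linarith
  -- sum of `key`
  have skey : 3 / (4 * (n : ℝ)) * ∑ y ∈ B, ∑ z ∈ B, F y z z ^ 2 ≤
      3 / (4 * (B.card : ℝ)) * ∑ y ∈ B, ∑ z ∈ B, (∑ x ∈ B, F x y z) ^ 2 +
      1 / (12 * (B.card : ℝ)) * ∑ y ∈ B, ∑ z ∈ B, (∑ x ∈ B, (F y x z - F z x y)) ^ 2 +
      ∑ w ∈ Bᶜ, (3 / 4 * ∑ x ∈ B, ∑ y ∈ B, (if x = y then 0 else (F w x y - q w) ^ 2) +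
      1 / 3 * ∑ x ∈ B, ∑ y ∈ B, ((F x y w - F y x w) / 2) ^ 2) := by
    have h1 : ∑ y ∈ B, ∑ z ∈ B, (3 / (4 * (n : ℝ)) * ((F y z z ^ 2 + F z y y ^ 2) / 2)) ≤
      ∑ y ∈ B, ∑ z ∈ B, (3 / (4 * (B.card : ℝ)) * (∑ x ∈ B, F x y z) ^ 2 +
      1 / (12 * (B.card : ℝ)) * (∑ x ∈ B, (F y x z - F z x y)) ^ 2 +
      ∑ w ∈ Bᶜ, (3 / 4 * (if y = z then 0 else (F w y z - q w) ^ 2) +
        1 / 3 * ((F y z w - F z y w) / 2) ^ 2)) :=
      Finset.sum_le_sum fun y _ => Finset.sum_le_sum fun z _ => key y z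
    have h2 : ∑ y ∈ B, ∑ z ∈ B, (3 / (4 * (n : ℝ)) * ((F y z z ^ 2 + F z y y ^ 2) / 2)) =
        3 / (4 * (n : ℝ)) * ∑ y ∈ B, ∑ z ∈ B, F y z z ^ 2 := by
      have h3 : ∑ y ∈ B, ∑ z ∈ B, F z y y ^ 2 = ∑ y ∈ B, ∑ z ∈ B, F y z z ^ 2 :=
        Finset.sum_comm
      have h4 : ∑ y ∈ B, ∑ z ∈ B, (3 / (4 * (n : ℝ)) * ((F y z z ^ 2 + F z y y ^ 2) / 2)) =
          3 / (4 * (n : ℝ)) * ((∑ y ∈ B, ∑ z ∈ B, F y z z ^ 2 +
            ∑ y ∈ B, ∑ z ∈ B, F z y y ^ 2) / 2) := by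
        rw [← Finset.sum_add_distrib, Finset.sum_div, Finset.mul_sum]
        refine Finset.sum_congr rfl fun y _ => ?_
        rw [← Finset.sum_add_distrib, Finset.sum_div, Finset.mul_sum]
      rw [h4, h3]
      ring
    have h5 : ∑ y ∈ B, ∑ z ∈ B, (3 / (4 * (B.card : ℝ)) * (∑ x ∈ B, F x y z) ^ 2 +
      1 / (12 * (B.card : ℝ)) * (∑ x ∈ B, (F y x z - F z x y)) ^ 2 +
      ∑ w ∈ Bᶜ, (3 / 4 * (if y = z then 0 else (F w y z - q w) ^ 2) +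
        1 / 3 * ((F y z w - F z y w) / 2) ^ 2)) =
      3 / (4 * (B.card : ℝ)) * ∑ y ∈ B, ∑ z ∈ B, (∑ x ∈ B, F x y z) ^ 2 +
      1 / (12 * (B.card : ℝ)) * ∑ y ∈ B, ∑ z ∈ B, (∑ x ∈ B, (F y x z - F z x y)) ^ 2 +
      ∑ w ∈ Bᶜ, (3 / 4 * ∑ x ∈ B, ∑ y ∈ B, (if x = y then 0 else (F w x y - q w) ^ 2) +
      1 / 3 * ∑ x ∈ B, ∑ y ∈ B, ((F x y w - F y x w) / 2) ^ 2) := by
      have h6 : ∑ y ∈ B, ∑ z ∈ B, ∑ w ∈ Bᶜ,
          (3 / 4 * (if y = z then 0 else (F w y z - q w) ^ 2) +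
            1 / 3 * ((F y z w - F z y w) / 2) ^ 2) =
          ∑ w ∈ Bᶜ, (3 / 4 * ∑ x ∈ B, ∑ y ∈ B, (if x = y then 0 else (F w x y - q w) ^ 2) +
            1 / 3 * ∑ x ∈ B, ∑ y ∈ B, ((F x y w - F y x w) / 2) ^ 2) := by
        rw [swap3 B Bᶜ (fun w y z => 3 / 4 * (if y = z then 0 else (F w y z - q w) ^ 2) +
            1 / 3 * ((F y z w - F z y w) / 2) ^ 2)]
        refine Finset.sum_congr rfl fun w _ => ?_
        rw [Finset.mul_sum, Finset.mul_sum, ← Finset.sum_add_distrib]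
        refine Finset.sum_congr rfl fun y _ => ?_
        rw [Finset.mul_sum, Finset.mul_sum, ← Finset.sum_add_distrib]
      rw [← h6, Finset.mul_sum, Finset.mul_sum, ← Finset.sum_add_distrib,
        ← Finset.sum_add_distrib]
      refine Finset.sum_congr rfl fun y _ => ?_
      rw [Finset.mul_sum, Finset.mul_sum, ← Finset.sum_add_distrib, ← Finset.sum_add_distrib]
    rw [h2, h5] at h1
    exact h1
  have sQ2 := Finset.sum_le_sum fun w (_ : w ∈ Bᶜ) => Q2 w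
  rw [Finset.sum_sub_distrib] at sQ2
  have hpos : 0 ≤ (3 / 2 + 3 / (4 * (n : ℝ))) / B.card * ∑ y ∈ B, (∑ x ∈ B, F x y y) ^ 2 := by
    have : 0 ≤ ∑ y ∈ B, (∑ x ∈ B, F x y y) ^ 2 := Finset.sum_nonneg fun y _ => sq_nonneg _
    positivity
  have hneg : -(3 / (4 * (n : ℝ))) * ∑ x ∈ B, ∑ y ∈ B, F x y y ^ 2 =
      -(3 / (4 * (n : ℝ)) * ∑ x ∈ B, ∑ y ∈ B, F x y y ^ 2) := by ring
  rw [hneg] at Q3
  linarith

end Pool.Agent.BSE.H65e
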